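import Mathlib
import Pool.Agent.H70.CG.Game
import Pool.Agent.H70.CG.Col

/-!
# The clique game (K_N, K_4): the win number is smaller than the Ramsey number

The first player wins on `K_N` for every `N ≥ 17`, and `R(4) = 18`.

* The board of the game is the set `edges N` of the edges of the complete graph on `Fin N`. `Wins`
(`Pool/Agent/H70/CG/Game.lean`) is the usual backward induction: the player to move, who owns `P`,
against the other player, who owns `Q`, can force to be the first to own a winning set.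
* If the first player does not win there is a drawn play (strategy stealing in every round). If the
number of edges is even its last round gives a colouring without monochromatic `K_4` and a red edge
`a` and a blue edge `b` such that the red graph with `a` replaced by `b` contains no `K_4` either.
* For `N = 17` every colouring without monochromatic `K_4` is strongly regular with parameters
(17, 8, 3, 4), and no such pair `a`, `b` exists (`Pool/Agent/H70/CG/Col.lean`).
-/

set_option autoImplicit false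

open Pool.Agent.H70.CG

namespace Pool.Agent.Results.MP_9b343c_co.CliqueFour

/-- the edges of the complete graph on `Fin N` -/
def edges (N : ℕ) : Finset (Sym2 (Fin N)) := Finset.univ.filter fun e => ¬ e.IsDiag

/-- the set `P` of edges contains all edges of a complete graph with `q` vertices -/
def HasClique (q : ℕ) {N : ℕ} (P : Finset (Sym2 (Fin N))) : Prop :=
  ∃ S : Finset (Fin N), S.card = q ∧ ∀ x ∈ S, ∀ y ∈ S, x ≠ y → s(x, y) ∈ P

/-- the first player has a winning strategy in the game `(K_N, K_q)` -/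
def FirstWins (N q : ℕ) : Prop := Wins (edges N) (HasClique q) ∅ ∅

/-- the win number -/
noncomputable def winNumber (q : ℕ) : ℕ := sInf {M : ℕ | ∀ N, M ≤ N → FirstWins N q}

/-- the diagonal Ramsey number -/
noncomputable def ramsey (q : ℕ) : ℕ :=
  sInf {N : ℕ | ∀ R ⊆ edges N, HasClique q R ∨ HasClique q (edges N \ R)}

private theorem hc_mono {q N : ℕ} : ∀ A B : Finset (Sym2 (Fin N)), A ⊆ B → HasClique q A →
    HasClique q B := by
  rintro A B h ⟨S, hS, h1⟩
  exact ⟨S, hS, fun x hx y hy hxy => h (h1 x hx y hy hxy)⟩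

private theorem hc_empty {N : ℕ} : ¬ HasClique 4 (∅ : Finset (Sym2 (Fin N))) := by
  rintro ⟨S, hS, h1⟩
  obtain ⟨x, hx, y, hy, hxy⟩ := Finset.one_lt_card.1 (show 1 < S.card by omega)
  exact absurd (h1 x hx y hy hxy) (Finset.notMem_empty _)

private theorem mem_edges {N : ℕ} {x y : Fin N} (h : x ≠ y) : s(x, y) ∈ edges N := by
  unfold edges
  rw [Finset.mem_filter]
  exact ⟨Finset.mem_univ _, fun hd => h (Sym2.mk_isDiag_iff.1 hd)⟩

private theorem card_edges (N : ℕ) : (edges N).card = N.choose 2 := by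
  have h1 := Sym2.card_subtype_not_diag (α := Fin N)
  rw [Fintype.card_subtype, Fintype.card_fin] at h1
  exact h1

/-- four points form a clique -/
private theorem four {N : ℕ} {P : Finset (Sym2 (Fin N))} {a b c d : Fin N} (hab : a ≠ b)
    (hac : a ≠ c) (had : a ≠ d) (hbc : b ≠ c) (hbd : b ≠ d) (hcd : c ≠ d) (h1 : s(a, b) ∈ P)
    (h2 : s(a, c) ∈ P) (h3 : s(a, d) ∈ P) (h4 : s(b, c) ∈ P) (h5 : s(b, d) ∈ P)
    (h6 : s(c, d) ∈ P) : HasClique 4 P := by
  refine ⟨{a, b, c, d}, ?_, ?_⟩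
  · rw [Finset.card_insert_of_notMem, Finset.card_insert_of_notMem, Finset.card_pair hcd]
    · simp [hbc, hbd]
    · simp [hab, hac, had]
  · intro x hx y hy hxy
    simp only [Finset.mem_insert, Finset.mem_singleton] at hx hy
    rcases hx with rfl | rfl | rfl | rfl <;> rcases hy with rfl | rfl | rfl | rfl <;>
      first
        | exact absurd rfl hxy
        | assumption
        | (rw [Sym2.eq_swap]; assumption)

private theorem t4_of {N : ℕ} {P : Finset (Sym2 (Fin N))} {r : Fin N → Fin N → Prop}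
    (h : ¬ HasClique 4 P) (hr : ∀ x y, x ≠ y → r x y → s(x, y) ∈ P) : T4 r Finset.univ := by
  refine t4_intro fun a b c d hb hc hd hbc hbd hcd m1 m2 m3 h1 h2 h3 => ?_
  exact h (four (Ne.symm hb) (Ne.symm hc) (Ne.symm hd) hbc hbd hcd (hr a b (Ne.symm hb) m1)
    (hr a c (Ne.symm hc) m2) (hr a d (Ne.symm hd) m3) (hr b c hbc h1) (hr b d hbd h2)
    (hr c d hcd h3))

/-- the red relation of a colouring -/
private def rel {N : ℕ} (C : Finset (Sym2 (Fin N))) : Fin N → Fin N → Prop := fun x y => s(x, y) ∈ C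

private theorem rel_symm {N : ℕ} (C : Finset (Sym2 (Fin N))) : ∀ x y, rel C x y → rel C y x := by
  intro x y h
  unfold rel at h ⊢
  rwa [Sym2.eq_swap]

private theorem rel_t4 {N : ℕ} {C : Finset (Sym2 (Fin N))} (h : ¬ HasClique 4 C)
    (h' : ¬ HasClique 4 (edges N \ C)) :
    T4 (rel C) Finset.univ ∧ T4 (co (rel C)) Finset.univ :=
  ⟨t4_of h fun _ _ _ h => h, t4_of h' fun _ _ hxy h => Finset.mem_sdiff.2 ⟨mem_edges hxy, h⟩⟩

/-- R(4) <= 18 -/
private theorem upper {N : ℕ} (hN : 18 ≤ N) (R : Finset (Sym2 (Fin N))) :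
    HasClique 4 R ∨ HasClique 4 (edges N \ R) := by
  by_contra hno
  rw [not_or] at hno
  obtain ⟨h1, h2⟩ := rel_t4 hno.1 hno.2
  have x : Fin N := ⟨0, by omega⟩
  have k1 := nb_card_le (rel_symm R) h1 h2 x
  have k2 := nb_card_le (co_sym (rel_symm R)) h2 (by rw [co_co]; exact h1) x
  have k3 := nb_co (r := rel R) x
  rw [Fintype.card_fin] at k3
  omega

/-- no exchangeable pair on 17 vertices -/
private theorem no_flip {C : Finset (Sym2 (Fin 17))} {a b : Sym2 (Fin 17)} (ha : a ∈ C)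
    (hb : b ∈ edges 17 \ C) (h1 : ¬ HasClique 4 C) (h2 : ¬ HasClique 4 (edges 17 \ C))
    (h3 : ¬ HasClique 4 (insert b (C.erase a))) : False := by
  obtain ⟨t1, t2⟩ := rel_t4 h1 h2
  have hr := rel_symm C
  have hV : Fintype.card (Fin 17) = 17 := Fintype.card_fin 17
  induction a with | _ p q => ?_
  induction b with | _ x y => ?_
  rw [Finset.mem_sdiff] at hb
  have hxy : x ≠ y := by
    have h4 := hb.1
    unfold edges at h4
    rw [Finset.mem_filter] at h4
    exact fun h => h4.2 (Sym2.mk_isDiag_iff.2 h)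
  have hyx : y ∈ nb (co (rel C)) x := mem_nb.2 ⟨Ne.symm hxy, hb.2⟩
  have key : ∀ c d, c ∈ nb (rel C) x → c ∈ nb (rel C) y → d ∈ nb (rel C) x → d ∈ nb (rel C) y →
      c ≠ d → rel C c d → s(x, c) ≠ s(p, q) → s(x, d) ≠ s(p, q) → s(y, c) ≠ s(p, q) →
      s(y, d) ≠ s(p, q) → s(c, d) ≠ s(p, q) → False := by
    intro c d c1 c2 d1 d2 hcd hrc n1 n2 n3 n4 n5
    rw [mem_nb] at c1 c2 d1 d2
    have f : ∀ e ∈ C, e ≠ s(p, q) → e ∈ insert s(x, y) (C.erase s(p, q)) := fun e he hne =>
      Finset.mem_insert_of_mem (Finset.mem_erase.2 ⟨hne, he⟩)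
    exact h3 (four hxy (Ne.symm c1.1) (Ne.symm d1.1) (Ne.symm c2.1) (Ne.symm d2.1) hcd
      (Finset.mem_insert_self _ _) (f _ c1.2 n1) (f _ d1.2 n2) (f _ c2.2 n3)
      (f _ d2.2 n4) (f _ hrc n5))
  have ne_of : ∀ u v z : Fin 17, z ≠ u → z ≠ v → (z = p ∨ z = q) → s(u, v) ≠ s(p, q) := by
    intro u v z hu hv hz he
    have hm : z ∈ s(u, v) := by
      rw [he]
      rcases hz with rfl | rfl
      · exact Sym2.mem_mk_left _ _
      · exact Sym2.mem_mk_right _ _
    rcases Sym2.mem_iff.1 hm with h | h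
    · exact hu h
    · exact hv h
  have case1 : ∀ z, (z = p ∨ z = q) → z ∈ nb (rel C) x → z ∈ nb (rel C) y → False := by
    intro z hz z1 z2
    have z3 := (mem_nb.1 z1).1
    have z4 := (mem_nb.1 z2).1
    refine no_star' hr t1 t2 hV hyx z1 z2 ?_
    intro c d c1 c2 d1 d2 hc hd hcd hrc
    exact key c d c1 c2 d1 d2 hcd hrc (ne_of _ _ z z3 (Ne.symm hc) hz)
      (ne_of _ _ z z3 (Ne.symm hd) hz) (ne_of _ _ z z4 (Ne.symm hc) hz)
      (ne_of _ _ z z4 (Ne.symm hd) hz) (ne_of _ _ z (Ne.symm hc) (Ne.symm hd) hz)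
  have ne_of2 : ∀ u v : Fin 17, v ∈ nb (rel C) x → v ∈ nb (rel C) y → s(u, v) ≠ s(p, q) := by
    intro u v v1 v2 he
    have hm : v ∈ s(p, q) := by
      rw [← he]
      exact Sym2.mem_mk_right _ _
    rcases Sym2.mem_iff.1 hm with h | h
    · exact case1 v (Or.inl h) v1 v2
    · exact case1 v (Or.inr h) v1 v2
  obtain ⟨w, w1, w2⟩ := ex_common hr t1 t2 hV hyx
  refine no_star' hr t1 t2 hV hyx w1 w2 ?_
  intro c d c1 c2 d1 d2 _ _ hcd hrc
  exact key c d c1 c2 d1 d2 hcd hrc (ne_of2 _ _ c1 c2) (ne_of2 _ _ d1 d2) (ne_of2 _ _ c1 c2)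
    (ne_of2 _ _ d1 d2) (ne_of2 _ _ d1 d2)

private theorem wins_all (N : ℕ) (hN : 17 ≤ N) : FirstWins N 4 := by
  by_contra hw
  have hD : Drawn (edges N) (HasClique 4) ∅ ∅ := drawn_start hc_mono hc_empty hw
  rcases Nat.lt_or_ge N 18 with h | h
  · have hN17 : N = 17 := by omega
    subst hN17
    have hc : (edges 17 \ (∅ ∪ ∅)).card = 2 * 67 + 2 := by
      rw [Finset.union_empty, Finset.sdiff_empty, card_edges]
      rfl
    obtain ⟨C, -, a, ha, b, hb, -, h1, h2, h3⟩ := hD.flip 67 hc rfl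
    exact no_flip ha hb h1 h2 h3
  · obtain ⟨C, -, h1, h2⟩ := hD.colour _ rfl
    rcases upper h C with h3 | h3
    · exact h1 h3
    · exact h2 h3

/-- the quadratic residues modulo 17 -/
private def Q17 : Finset (ZMod 17) := {1, 2, 4, 8, 9, 13, 15, 16}

private def N17 : Finset (ZMod 17) := {3, 5, 6, 7, 10, 11, 12, 14}

private theorem q17 : ∀ u ∈ Q17, ∀ v ∈ Q17, v - u ∈ Q17 → ∀ w ∈ Q17, w - u ∈ Q17 →
    w - v ∉ Q17 := by decide

private theorem n17 : ∀ u ∈ N17, ∀ v ∈ N17, v - u ∈ N17 → ∀ w ∈ N17, w - u ∈ N17 →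
    w - v ∉ N17 := by decide

private theorem qn : ∀ u : ZMod 17, u ≠ 0 → u ∉ Q17 → u ∈ N17 := by decide

private theorem q_neg : ∀ u ∈ Q17, -u ∈ Q17 := by decide

private theorem lower {N : ℕ} (hN : N ≤ 17) : ∃ C ⊆ edges N, ¬ HasClique 4 C ∧
    ¬ HasClique 4 (edges N \ C) := by
  classical
  obtain ⟨f, hf⟩ : ∃ f : Fin N → ZMod 17, f = fun x : Fin N => ((x : ℕ) : ZMod 17) := ⟨_, rfl⟩
  have finj : ∀ x y, f x = f y → x = y := by
    intro x y h
    rw [hf] at h
    have h1 := congrArg ZMod.val h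
    simp only at h1
    rw [ZMod.val_natCast, ZMod.val_natCast, Nat.mod_eq_of_lt (by have := x.2; omega),
      Nat.mod_eq_of_lt (by have := y.2; omega)] at h1
    exact Fin.ext h1
  obtain ⟨C, hC⟩ : ∃ C, C = (edges N).filter fun e => ∃ x y, e = s(x, y) ∧ f y - f x ∈ Q17 :=
    ⟨_, rfl⟩
  have hmem : ∀ x y, x ≠ y → (s(x, y) ∈ C ↔ f y - f x ∈ Q17) := by
    intro x y hxy
    rw [hC, Finset.mem_filter]
    constructor
    · rintro ⟨-, x', y', h1, h2⟩
      rcases Sym2.eq_iff.1 h1 with ⟨rfl, rfl⟩ | ⟨rfl, rfl⟩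
      · exact h2
      · have h3 := q_neg _ h2
        rwa [neg_sub] at h3
    · intro h
      exact ⟨mem_edges hxy, x, y, rfl, h⟩
  have get4 : ∀ S : Finset (Fin N), S.card = 4 → ∃ a ∈ S, ∃ b ∈ S, ∃ c ∈ S, ∃ d ∈ S,
      a ≠ b ∧ a ≠ c ∧ a ≠ d ∧ b ≠ c ∧ b ≠ d ∧ c ≠ d := by
    intro S hS
    obtain ⟨a, ha⟩ : S.Nonempty := Finset.card_pos.1 (by omega)
    obtain ⟨b, hb, c, hc, d, hd, h1, h2, h3⟩ := Finset.two_lt_card.1 (show 2 < (S.erase a).card by
      rw [Finset.card_erase_of_mem ha]; omega)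
    rw [Finset.mem_erase] at hb hc hd
    exact ⟨a, ha, b, hb.2, c, hc.2, d, hd.2, Ne.symm hb.1, Ne.symm hc.1, Ne.symm hd.1, h1, h2, h3⟩
  refine ⟨C, by rw [hC]; exact Finset.filter_subset _ _, ?_, ?_⟩
  · rintro ⟨S, hS, h⟩
    obtain ⟨a, ha, b, hb, c, hc, d, hd, hab, hac, had, hbc, hbd, hcd⟩ := get4 S hS
    have m : ∀ x ∈ S, ∀ y ∈ S, x ≠ y → f y - f x ∈ Q17 := fun x hx y hy hxy =>
      (hmem x y hxy).1 (h x hx y hy hxy)
    have e1 : (f c - f a) - (f b - f a) = f c - f b := by ring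
    have e2 : (f d - f a) - (f b - f a) = f d - f b := by ring
    have e3 : (f d - f a) - (f c - f a) = f d - f c := by ring
    exact q17 _ (m a ha b hb hab) _ (m a ha c hc hac) (by rw [e1]; exact m b hb c hc hbc) _
      (m a ha d hd had) (by rw [e2]; exact m b hb d hd hbd) (by rw [e3]; exact m c hc d hd hcd)
  · rintro ⟨S, hS, h⟩
    obtain ⟨a, ha, b, hb, c, hc, d, hd, hab, hac, had, hbc, hbd, hcd⟩ := get4 S hS
    have m : ∀ x ∈ S, ∀ y ∈ S, x ≠ y → f y - f x ∈ N17 := by
      intro x hx y hy hxy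
      have h1 := (Finset.mem_sdiff.1 (h x hx y hy hxy)).2
      rw [hmem x y hxy] at h1
      refine qn _ ?_ h1
      intro h0
      exact hxy (finj _ _ (sub_eq_zero.1 h0).symm)
    have e1 : (f c - f a) - (f b - f a) = f c - f b := by ring
    have e2 : (f d - f a) - (f b - f a) = f d - f b := by ring
    have e3 : (f d - f a) - (f c - f a) = f d - f c := by ring
    exact n17 _ (m a ha b hb hab) _ (m a ha c hc hac) (by rw [e1]; exact m b hb c hc hbc) _
      (m a ha d hd had) (by rw [e2]; exact m b hb d hd hbd) (by rw [e3]; exact m c hc d hd hcd)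

private theorem ramsey_four : ramsey 4 = 18 := by
  unfold ramsey
  have h18 : (18 : ℕ) ∈ {N : ℕ | ∀ R ⊆ edges N, HasClique 4 R ∨ HasClique 4 (edges N \ R)} :=
    fun R _ => upper le_rfl R
  refine le_antisymm (Nat.sInf_le h18) (le_csInf ⟨18, h18⟩ fun N hN => ?_)
  by_contra hcon
  obtain ⟨C, hC, h1, h2⟩ := lower (show N ≤ 17 by omega)
  rcases hN C hC with h3 | h3
  · exact h1 h3
  · exact h2 h3

/-- The first player wins the game `(K_N, K_4)` for every `N ≥ 17`; so the win number of `K_4` is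
smaller than the Ramsey number `R(4) = 18`. -/
theorem result : (∀ N, 17 ≤ N → FirstWins N 4) ∧ winNumber 4 < ramsey 4 ∧ ramsey 4 = 18 := by
  refine ⟨wins_all, ?_, ramsey_four⟩
  rw [ramsey_four]
  have h : winNumber 4 ≤ 17 := Nat.sInf_le wins_all
  omega

end Pool.Agent.Results.MP_9b343c_co.CliqueFour
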